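import Pool.Agent.D0H90.KT.Div

/-!
Divisors which are `ℚ`-linearly equivalent to multiples of `K_X + Δ`: from the sections of
`m (K_X + Δ) + A` to the sections of `m D + A`.
-/

set_option autoImplicit false
set_option linter.unusedSectionVars false

open FF Filter Pool.Agent.W602.GT Pool.Agent.W603.LV Pool.Agent.Y172 Pool.Agent.Y191

namespace Pool.Agent.D0H90.KT

section

variable {K : Type} [Field K] [Algebra ℂ K] {N n : ℕ}

/-- The number of the sections of `m (K_X + Δ) + A` grows at most like `m ^ d`, and there are `d + 1`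
sections of a multiple of `K_X + Δ` with algebraically independent ratios. -/
def Grow (y : Fin (N + 1) → K) (n : ℕ) (Δ : Place ℂ K → ℚ) (d : ℕ) : Prop :=
  (∃ E : Fin n → Derivation ℂ K K, IsFrame E ∧ ∀ A, Effective y A → ∃ C : ℕ, ∀ m : ℕ, 1 ≤ m →
    ∀ (r : ℕ) (f : Fin r → K), LinearIndependent ℂ f →
      (∀ i, ∃ ω, Y172.IsSection y n m (m • Δ + A) ω ∧ ω E = f i) → r ≤ C * m ^ d) ∧
  KodairaGe n {P | IsPrimeDivisor y P} (fun P => (Δ P : ℝ)) d

/-- powers of independent elements -/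
theorem pow_indep {F ι : Type} [Field F] [Algebra F K] {y : ι → K} (hy : AlgebraicIndependent F y)
    {n : ι → ℕ} (hn : ∀ i, n i ≠ 0) : AlgebraicIndependent F fun i => y i ^ n i := by
  have h1 := hy.polynomial_aeval_of_transcendental (f := fun i => (Polynomial.X : Polynomial F) ^ n i)
    fun i => (Polynomial.transcendental_X F).pow (Nat.pos_of_ne_zero (hn i))
  simpa using h1

theorem frame_pluri {E : Fin n → Derivation ℂ K K} (hfr : IsFrame E)
    (D : Fin n → Derivation ℂ K K) : ∃ δ : K, ∀ (m : ℕ) (ω : (Fin n → Derivation ℂ K K) → K),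
      IsPluri m ω → ω D = δ ^ m * ω E := by
  choose B hB using fun i => hfr (D i)
  refine ⟨(Matrix.of B).det, fun m ω hω => ?_⟩
  have h1 := hω (Matrix.of B) E
  have h2 : (fun i => ∑ j, Matrix.of B i j • E j) = D := by
    funext i
    exact (hB i).symm
  rw [h2] at h1
  exact h1

/-- **Divisors which are `ℚ`-linearly equivalent to a multiple of `K_X + Δ`.** -/
theorem transfer {d : ℕ} (htr : Algebra.trdeg ℂ K = (n : ℕ)) {y : Fin (N + 1) → K}
    (hy : NormalModel y) {Δ : Place ℂ K → ℚ} (hG : Grow y n Δ d)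
    {L : Place ℂ K → ℚ} (hL : IsDiv y L) {a b : ℕ} (ha : 1 ≤ a) (hb : 1 ≤ b)
    {η : (Fin n → Derivation ℂ K K) → K} (hη : IsPluri a η) (hη0 : η ≠ 0)
    (hηP : ∀ P, IsPrimeDivisor y P → OrdEq P η (b * L P - a * Δ P)) :
    iitakaDim y L = (d : WithBot ℕ) ∧
      ∀ A, Effective y A → Integral y A → numDim y L A = (d : EReal) := by
  classical
  obtain ⟨⟨E, hfr, hup0⟩, m0, hm0, ω, hω, D, hD, hind⟩ := hG
  have hηE : η E ≠ 0 := fun h0 => hη0 (pluri_zero hfr hη h0)
  -- the sections at the frame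
  obtain ⟨δ, hδ⟩ := frame_pluri hfr D
  have hδω : ∀ l, ω l D = δ ^ m0 * ω l E := fun l => hδ m0 (ω l) (hω l).1
  have hδ0 : δ ^ m0 ≠ 0 := fun h0 => hD (by rw [hδω, h0, zero_mul])
  have hωE0 : ω 0 E ≠ 0 := fun h0 => hD (by rw [hδω, h0, mul_zero])
  have hind' : AlgebraicIndependent ℂ fun l : Fin d => ω l.succ E / ω 0 E := by
    have h3 : (fun l : Fin d => ω l.succ D / ω 0 D) = fun l => ω l.succ E / ω 0 E := by
      funext l
      rw [hδω, hδω, mul_div_mul_left _ _ hδ0]
    rwa [h3] at hind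
  have hωE : ∀ l, ω l E ≠ 0 := by
    intro l
    refine Fin.cases hωE0 (fun i h0 => ?_) l
    have h1 := hind'.ne_zero i
    rw [h0, zero_div] at h1
    exact h1 rfl
  refine dimsD hL ?_ (m0 := m0 * b) (Nat.mul_pos hm0 hb)
    (g := fun j => ω j E ^ a / η E ^ m0) ?_ ?_ ?_
  · intro A hA
    obtain ⟨A', hA'd⟩ : ∃ A' : Place ℂ K → ℚ, A' = fun P => A P + b * |L P| := ⟨_, rfl⟩
    have hA' : Effective y A' := by
      refine ⟨fun P hP => ?_, ?_⟩
      · rw [hA'd]
        have := hA.1 P hP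
        positivity
      · refine (hA.2.union hL).subset ?_
        rintro P ⟨hP, h0⟩
        by_cases h3 : A P = 0
        · right
          refine ⟨hP, fun h4 => h0 ?_⟩
          rw [hA'd]
          beta_reduce
          rw [h3, h4]
          simp
        · exact Or.inl ⟨hP, h3⟩
    obtain ⟨C, hC⟩ := hup0 A' hA'
    refine ⟨C * (2 * a) ^ d, fun m hm r f hf hfs => ?_⟩
    have hmb := Nat.div_add_mod m b
    have hmb' := Nat.mod_lt m hb
    have hmb'' := Nat.div_le_self m b
    obtain ⟨q, hq⟩ : ∃ q, q = m / b := ⟨_, rfl⟩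
    obtain ⟨ρ, hρ⟩ : ∃ ρ, ρ = m % b := ⟨_, rfl⟩
    rw [← hq] at hmb hmb''
    rw [← hρ] at hmb hmb'
    obtain ⟨i, hi⟩ : ∃ i, i = q + 1 := ⟨_, rfl⟩
    have hi1 : 1 ≤ i := by omega
    have hib : i * b = b * q + b := by rw [hi]; ring
    have hlow : m ≤ i * b := by omega
    have hup : i * b ≤ m + b := by omega
    have him : i ≤ 2 * m := by omega
    have h3 := hC (a * i) (Nat.mul_pos ha hi1) r (fun l => f l * η E ^ i) (by
      have h4 := hf.map' (LinearMap.mulRight ℂ (η E ^ i)) (by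
        rw [LinearMap.ker_eq_bot]
        exact fun a b hab => mul_right_cancel₀ (pow_ne_zero _ hηE) hab)
      exact h4) fun l => ⟨fun D => f l * η D ^ i, ⟨?_, ?_⟩, rfl⟩
    · refine h3.trans ?_
      rw [mul_assoc, ← mul_pow]
      refine Nat.mul_le_mul_left _ (Nat.pow_le_pow_left ?_ _)
      calc a * i ≤ a * (2 * m) := Nat.mul_le_mul_left _ him
        _ = 2 * a * m := by ring
    · intro B D
      have h4 := hη B D
      beta_reduce
      rw [h4, mul_pow, ← pow_mul]
      ring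
    · intro P hP E' hE'
      beta_reduce
      by_cases hf0 : f l = 0
      · exact Or.inl (by rw [hf0, zero_mul])
      by_cases hη' : η E' = 0
      · exact Or.inl (by rw [hη', zero_pow (by omega), mul_zero])
      right
      rw [P.ord_mul hf0 (pow_ne_zero _ hη'), P.ord_pow]
      have h4 := ((hηP P hP).1 E' hE').resolve_left hη'
      have h5 := (hfs l P hP).resolve_left hf0
      have hiq : (0 : ℚ) ≤ i := Nat.cast_nonneg _
      have h6 := mul_le_mul_of_nonneg_left h4 hiq
      have h7 : (m : ℚ) ≤ i * b := by exact_mod_cast hlow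
      have h8 : (i : ℚ) * b ≤ m + b := by exact_mod_cast hup
      have h9 : -((i * b - m : ℚ) * L P) ≤ b * |L P| := by
        have h10 : -((i * b - m : ℚ) * L P) ≤ (i * b - m : ℚ) * |L P| := by
          rw [← mul_neg]
          exact mul_le_mul_of_nonneg_left (neg_le_abs _) (by linarith)
        exact h10.trans (mul_le_mul_of_nonneg_right (by linarith) (abs_nonneg _))
      rw [Pi.add_apply, Pi.smul_apply, nsmul_eq_mul] at h5 ⊢
      rw [hA'd]
      push_cast at h6 ⊢
      nlinarith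
  · intro j P hP
    right
    obtain ⟨-, E', hE', hηE', hord⟩ := hηP P hP
    obtain ⟨δ', hδ'⟩ := frame_pluri hfr E'
    have h3 := hδ' a η hη
    have h4 := hδ' m0 (ω j) (hω j).1
    have hδ'0 : δ' ≠ 0 := by
      rintro rfl
      rw [h3, zero_pow (by omega), zero_mul] at hηE'
      exact hηE' rfl
    have hω' : ω j E' ≠ 0 := by
      rw [h4]
      exact mul_ne_zero (pow_ne_zero _ hδ'0) (hωE j)
    have h5 : ω j E ^ a / η E ^ m0 = ω j E' ^ a / η E' ^ m0 := by
      rw [h3, h4, mul_pow, mul_pow, ← pow_mul, ← pow_mul, mul_comm a m0,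
        mul_div_mul_left _ _ (pow_ne_zero _ hδ'0)]
    rw [h5, div_eq_mul_inv, P.ord_mul (pow_ne_zero _ hω') (inv_ne_zero (pow_ne_zero _ hηE')),
      P.ord_inv, P.ord_pow, P.ord_pow]
    rcases (hω j).2 P hP (hP.divisorial hy htr) E' hE' with h6 | h6
    · exact absurd h6 hω'
    · beta_reduce at h6
      have h9 : -((m0 : ℚ) * Δ P) ≤ (P.ord (ω j E') : ℤ) := by exact_mod_cast h6
      have haq : (0 : ℚ) ≤ a := Nat.cast_nonneg _
      have h10 := mul_le_mul_of_nonneg_left h9 haq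
      simp only [Pi.smul_apply, nsmul_eq_mul]
      push_cast
      rw [hord]
      nlinarith
  · exact div_ne_zero (pow_ne_zero _ (hωE 0)) (pow_ne_zero _ hηE)
  · have h3 : (fun i : Fin d => (ω i.succ E ^ a / η E ^ m0) / (ω 0 E ^ a / η E ^ m0)) =
        fun i => (ω i.succ E / ω 0 E) ^ a := by
      funext i
      rw [div_div_div_cancel_right₀ (pow_ne_zero _ hηE), div_pow]
    rw [h3]
    exact pow_indep hind' fun _ => by omega

/-- `K_X` is `ℚ`-linearly trivial: some nonzero pluricanonical form has order `0` along all prime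
divisors of `X`. -/
def TorsionK (y : Fin (N + 1) → K) (n : ℕ) : Prop :=
  ∃ a : ℕ, 1 ≤ a ∧ ∃ ω : (Fin n → Derivation ℂ K K) → K, ω ≠ 0 ∧ IsPluri a ω ∧
    ∀ P, IsPrimeDivisor y P → OrdEq P ω 0

/-- `D` is `ℚ`-linearly equivalent to a positive multiple of `Δ`: `b D = a Δ + div g`. -/
def QMultiple (y : Fin (N + 1) → K) (D Δ : Place ℂ K → ℚ) : Prop :=
  ∃ a b : ℕ, 1 ≤ a ∧ 1 ≤ b ∧ ∃ g : K, g ≠ 0 ∧
    ∀ P, IsPrimeDivisor y P → b * D P = a * Δ P + P.ord g

/-- **Divisors on varieties with torsion canonical class.** -/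
theorem torsion {d : ℕ} (htr : Algebra.trdeg ℂ K = (n : ℕ)) {y : Fin (N + 1) → K}
    (hy : NormalModel y) {Δ : Place ℂ K → ℚ} (hG : Grow y n Δ d)
    (hK : TorsionK y n) {D : Place ℂ K → ℚ} (hD : IsDiv y D) (hDΔ : QMultiple y D Δ) :
    iitakaDim y D = (d : WithBot ℕ) ∧
      ∀ A, Effective y A → Integral y A → numDim y D A = (d : EReal) := by
  obtain ⟨a1, ha1, ω, hω0, hω, hωP⟩ := hK
  obtain ⟨a, b, ha, hb, g, hg0, hg⟩ := hDΔ
  refine transfer htr hy hG hD (a := a * a1) (b := b * a1) (Nat.mul_pos ha ha1)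
    (Nat.mul_pos hb ha1) (η := fun E => g ^ a1 * ω E ^ a) ?_ ?_ ?_
  · intro B E
    have h1 := hω B E
    beta_reduce
    rw [h1, mul_pow, ← pow_mul, mul_comm a1 a]
    ring
  · intro h0
    apply hω0
    funext E
    have h1 := congrFun h0 E
    beta_reduce at h1
    exact (pow_eq_zero_iff (by omega)).1 ((mul_eq_zero.1 h1).resolve_left (pow_ne_zero _ hg0))
  · intro P hP
    obtain ⟨h1, E, hE, hωE, hord⟩ := hωP P hP
    have h2 : ((b * a1 : ℕ) : ℚ) * D P - ((a * a1 : ℕ) : ℚ) * Δ P = a1 * (P.ord g : ℚ) := by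
      have h3 := hg P hP
      push_cast
      linear_combination (a1 : ℚ) * h3
    rw [h2]
    refine ⟨fun E' hE' => ?_, E, hE, mul_ne_zero (pow_ne_zero _ hg0) (pow_ne_zero _ hωE), ?_⟩
    · beta_reduce
      by_cases h3 : ω E' = 0
      · left
        rw [h3, zero_pow (by omega), mul_zero]
      · right
        have h4 := (h1 E' hE').resolve_left h3
        rw [P.ord_mul (pow_ne_zero _ hg0) (pow_ne_zero _ h3), P.ord_pow, P.ord_pow]
        push_cast
        have h5 : (0 : ℚ) ≤ (a : ℚ) * (P.ord (ω E') : ℚ) := mul_nonneg (Nat.cast_nonneg _) h4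
        linarith
    · rw [P.ord_mul (pow_ne_zero _ hg0) (pow_ne_zero _ hωE), P.ord_pow, P.ord_pow]
      push_cast
      rw [hord]
      ring

end

end Pool.Agent.D0H90.KT
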