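import Pool.Agent.D0H90.WA.Dich2
import Pool.Agent.D0H90.KT.Tr

/-!
The growth of the sections of `m (K_X + Δ) + A` for pairs with very affine interior or very affine
fibres.
-/

set_option autoImplicit false
set_option linter.unusedSectionVars false

open FF Pool.Agent.W602.GT Pool.Agent.W603.LV Pool.Agent.TH122.AB Pool.Agent.TH585.SV
open Pool.Agent.Y172 Pool.Agent.Y191 Pool.Agent.D0H90.WA

namespace Pool.Agent.D0H90.KT

section

variable {K : Type} [Field K] [Algebra ℂ K] {N : ℕ} {y : Fin (N + 1) → K} {n : ℕ}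

/-- **Weak abundance** from sections of the base: abstract form. -/
theorem weak_grow {Δ : Place ℂ K → ℚ} {p s r : ℕ}
    (hy : NormalModel y) (hn : Algebra.trdeg ℂ K = n) (hΔ : Effective y Δ)
    (hLC : LogCanonical y n Δ) {F : IntermediateField ℂ K}
    (hd : Algebra.trdeg ℂ F = p) (hs : n = p + s)
    (hbase : ∀ δ₁ δ₂ : Place ℂ K → ℝ, ∀ lam : ℕ,
      (∀ P ∈ {P | IsPrimeDivisor y P}, δ₁ P + δ₂ P ≤ Δ P) →
      (∀ P ∈ {P | IsPrimeDivisor y P}, (¬ ∀ f ∈ F, f ≠ 0 → P.ord f = 0) → δ₁ P = Δ P) →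
      (∀ P ∈ {P | IsPrimeDivisor y P}, 0 ≤ δ₁ P) →
      ∀ m : ℕ, 0 < m → ∀ θ : Fin (lam + 1) → (Fin s → Derivation F K K) → K,
      (∀ j, FibSec n m {P | IsPrimeDivisor y P} δ₂ F (θ j)) →
      (∃ G, θ 0 G ≠ 0 ∧
        AlgebraicIndependent F (fun i : Fin lam => θ i.succ G / θ 0 G)) →
      KodairaGe n {P | IsPrimeDivisor y P} (fun P => (Δ P : ℝ)) (p + lam))
    {t : Fin r → K} (ht : ∀ j, t j ≠ 0)
    (hgen : IntermediateField.adjoin ℂ ({x : K | IsAlgebraic F x} ∪ Set.range t) = ⊤)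
    (h2 : ∀ P, IsPrimeDivisor y P → (∀ f ∈ F, f ≠ 0 → P.ord f = 0) →
      (∃ j, P.ord (t j) ≠ 0) → 1 ≤ Δ P ∨ (0 < Δ P ∧ Soft F s t P)) :
    ∃ κ : ℕ, p ≤ κ ∧ Grow y n Δ κ := by
  classical
  have hess := hy.ess
  -- the fibres
  have hgen' : IntermediateField.adjoin ℂ ((acl ℂ (F : Set K) : Set K) ∪ Set.range t) = ⊤ := by
    rw [← top_le_iff, ← hgen, IntermediateField.adjoin_le_iff]
    rintro x (hx | hx)
    · exact IntermediateField.subset_adjoin _ _ (Or.inl ((acl_closed (F : Set K)).mem_of_le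
        (fun y hy => subset_acl _ hy) hx))
    · exact IntermediateField.subset_adjoin _ _ (Or.inr hx)
  obtain ⟨e, l, M, J, D, u, H, gs⟩ := exists_gs hn ht hgen'
  obtain ⟨B, hB⟩ : ∃ B : MvPolynomial (Fin l) M → Prop, ∀ g, B g ↔ (Irreducible g ∧
      ∀ P, IsPrimeDivisor y P → Adic P u g → 0 < Δ P) := ⟨_, fun _ => Iff.rfl⟩
  obtain ⟨M1, l', ρ, x, u', fb⟩ := exists_fb hn gs B
  obtain ⟨μ, c, hc, hbas⟩ := full_basis hn gs fb
  -- the dimensions
  have hFe : Algebra.trdeg F K = e := by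
    have h3 := gs.bas.cardinalMk_eq_trdeg
    rw [Cardinal.mk_fin] at h3
    exact h3.symm
  have hne : n = p + e := by
    have h3 := trdeg_add_eq ℂ F (A := K)
    rw [hd, hFe, hn] at h3
    exact_mod_cast h3.symm
  obtain rfl : e = s := by omega
  have hel : e = l' + (ρ + μ) := by
    have h3 := hbas.cardinalMk_eq_trdeg
    rw [hFe, Cardinal.mk_sum, Cardinal.mk_sum, Cardinal.mk_fin, Cardinal.mk_fin, Cardinal.mk_fin,
      Cardinal.lift_natCast, Cardinal.lift_natCast, Cardinal.lift_natCast, ← Nat.cast_add,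
      Cardinal.lift_natCast, ← Nat.cast_add] at h3
    exact_mod_cast h3.symm
  -- the upper bound
  obtain ⟨E, hE, hEM, hEu⟩ := exists_adapted hn gs.closed gs.ind gs.top
  have hup : ∀ A, Effective y A → ∃ C : ℕ, ∀ m : ℕ, 1 ≤ m → ∀ (r : ℕ) (f : Fin r → K),
      LinearIndependent ℂ f → (∀ i, ∃ ω, Y172.IsSection y n m (m • Δ + A) ω ∧ ω E = f i) →
      r ≤ C * m ^ (p + (ρ + μ)) := by
    intro A hA
    refine upper hy hn hΔ hLC gs.ind gs.top fb (fun g hg hBg => ?_) hE hEM hEu (by omega) hA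
    rw [hB] at hBg
    push Not at hBg
    obtain ⟨P, hP, hPg, hPΔ⟩ := hBg hg
    exact ⟨P, hP, hPg, hPΔ⟩
  -- the coefficients
  let X : Set (Place ℂ K) := {P | IsPrimeDivisor y P}
  have hX : ∀ P, P ∈ X ↔ IsPrimeDivisor y P := fun _ => Iff.rfl
  obtain ⟨tr, htr⟩ : ∃ tr : Place ℂ K → Prop, ∀ P, tr P ↔
      ∀ f ∈ F, f ≠ 0 → P.ord f = 0 := ⟨_, fun _ => Iff.rfl⟩
  let δ₁ : Place ℂ K → ℝ := fun P => if tr P then 0 else (Δ P : ℝ)
  let δ₂ : Place ℂ K → ℝ := fun P => if tr P then (Δ P : ℝ) else 0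
  have hΔ0 : ∀ P ∈ X, (0 : ℝ) ≤ Δ P := fun P hP => by exact_mod_cast hΔ.1 P hP
  have hδ₁ : ∀ P ∈ X, 0 ≤ δ₁ P := by
    intro P hP
    change 0 ≤ if tr P then 0 else (Δ P : ℝ)
    split_ifs
    · exact le_rfl
    · exact hΔ0 P hP
  have hδ₂ : ∀ P ∈ X, 0 ≤ δ₂ P := by
    intro P hP
    change 0 ≤ if tr P then (Δ P : ℝ) else 0
    split_ifs
    · exact hΔ0 P hP
    · exact le_rfl
  have hδ : ∀ P ∈ X, δ₁ P + δ₂ P ≤ Δ P := by
    intro P _
    change (if tr P then 0 else (Δ P : ℝ)) + (if tr P then (Δ P : ℝ) else 0) ≤ Δ P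
    split_ifs <;> simp
  have hδ₂' : ∀ P, (∀ f ∈ F, f ≠ 0 → P.ord f = 0) → δ₂ P = Δ P := fun P hP =>
    if_pos ((htr P).2 hP)
  -- the lower bound
  obtain ⟨m, hm, θ, hθ1, hθ2, hθ3, hθ4⟩ := lower2 gs fb (X := X) (δ := δ₂) hδ₂
    (by
      rintro P hP ⟨hPF, hPt⟩
      rw [hδ₂' P hPF]
      rcases h2 P hP hPF hPt with h | ⟨h, h'⟩
      · left
        exact_mod_cast h
      · right
        exact ⟨by exact_mod_cast h, h'⟩)
    (by
      intro g hg
      rw [hB] at hg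
      refine ⟨hg.1, fun P hP hPg => ?_⟩
      rw [hδ₂' P fun f hf hf0 => hPg.triv f (gs.le hf) hf0]
      exact_mod_cast hg.2 P hP hPg)
    (fun f hf => finite_ord hy hf) hc (by
      have h3 := hbas.1.comp (Sum.inr : Fin ρ ⊕ Fin μ → Fin l' ⊕ (Fin ρ ⊕ Fin μ))
        Sum.inr_injective
      exact h3)
  have hGD : ∀ i, ((Y172.liftD (D i) F (gs.dk i)).restrictScalars ℂ) = D i := by
    intro i
    ext f
    rfl
  -- the sections
  have hkod := hbase δ₁ δ₂ (ρ + μ) hδ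
    (fun P _ hP => if_neg fun h => hP ((htr P).1 h)) hδ₁ m hm
    (fun b G => θ b fun i => (G i).restrictScalars ℂ)
    (by
      intro b
      refine ⟨pluri_restrict (hθ1 b) _, fun P hP _ G hG => ?_⟩
      exact hθ2 b P hP _ (fun i f hf => by
        have : (G i) f = 0 := (G i).map_algebraMap (⟨f, hf⟩ : F)
        exact this) (fun i f hf => hG i f hf))
    (by
      refine ⟨fun i => Y172.liftD (D i) F (gs.dk i), ?_, ?_⟩
      · simp only [hGD]
        exact hθ3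
      · simp only [hGD]
        exact hθ4)
  exact ⟨p + (ρ + μ), Nat.le_add_right _ _, ⟨E, hE, hup⟩, hkod⟩

/-- **Weak abundance** over bases with logarithmic pluricanonical forms. -/
theorem base_grow {Δ : Place ℂ K → ℚ} {p s r m : ℕ}
    (hy : NormalModel y) (hn : Algebra.trdeg ℂ K = n) (hΔ : Effective y Δ)
    (hLC : LogCanonical y n Δ) {F : IntermediateField ℂ K}
    (hd : Algebra.trdeg ℂ F = p) (hs : n = p + s)
    {x : Fin p → K} (hx : AlgebraicIndependent ℂ x) (hxF : ∀ j, x j ∈ F)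
    {g : Fin p → K} (hg : AlgebraicIndependent ℂ g) (hgF : ∀ j, g j ∈ F)
    {h : K} (hh : h ≠ 0) (hhF : h ∈ F)
    (hver : ∀ P, IsPrimeDivisor y P → (¬ ∀ f ∈ F, f ≠ 0 → P.ord f = 0) →
      (∀ E : Fin p → Derivation ℂ K K, (∀ i, DerReg P (E i)) →
        Ge P 0 (h * (mtx x E).det ^ m) ∧ ∀ j, Ge P 0 (g j * (h * (mtx x E).det ^ m))) ∨
      ((∀ E : Fin p → Derivation ℂ K K, (∀ i, DerReg P (E i)) →
        Ge P (-(m : ℤ)) (h * (mtx x E).det ^ m) ∧
          ∀ j, Ge P (-(m : ℤ)) (g j * (h * (mtx x E).det ^ m))) ∧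
        ∃ e : ℕ, (∀ f ∈ IntermediateField.adjoin ℂ (Set.range g), f ≠ 0 → (e : ℤ) ∣ P.ord f) ∧
          (1 - Δ P) * ((p + 1) * m + 1) < e))
    {t : Fin r → K} (ht : ∀ j, t j ≠ 0)
    (hgen : IntermediateField.adjoin ℂ ({x : K | IsAlgebraic F x} ∪ Set.range t) = ⊤)
    (h2 : ∀ P, IsPrimeDivisor y P → (∀ f ∈ F, f ≠ 0 → P.ord f = 0) →
      (∃ j, P.ord (t j) ≠ 0) → 1 ≤ Δ P ∨ (0 < Δ P ∧ Soft F s t P)) :
    ∃ κ : ℕ, p ≤ κ ∧ Grow y n Δ κ := by
  exact weak_grow hy hn hΔ hLC hd hs (fun δ₁ δ₂ lam hδ hδ1 hδ0 m1 hm1 θ hθ hne =>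
    base_hb hn hΔ hd hs hx hxF hg hgF hh hhF hver hδ hδ1 hδ0 hm1 hθ hne) ht hgen h2

/-- **Weak abundance** over very affine bases with finite stabiliser. -/
theorem torus_grow {Δ : Place ℂ K → ℚ} {p s r r' : ℕ}
    (hy : NormalModel y) (hn : Algebra.trdeg ℂ K = n) (hΔ : Effective y Δ)
    (hLC : LogCanonical y n Δ) {F : IntermediateField ℂ K}
    (hd : Algebra.trdeg ℂ F = p) (hs : n = p + s)
    {z : Fin r' → K} (hz : ∀ j, z j ≠ 0) (hzF : ∀ j, z j ∈ F)
    (htr : Algebra.trdeg ℂ (IntermediateField.adjoin ℂ (Set.range z)) = p)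
    (hNT : ∀ (H : Derivation ℂ (IntermediateField.adjoin ℂ (Set.range z))
      (IntermediateField.adjoin ℂ (Set.range z))) (b : Fin r' → ℤ),
      (∀ j (w : IntermediateField.adjoin ℂ (Set.range z)), (w : K) = z j →
        H w = (b j : IntermediateField.adjoin ℂ (Set.range z)) * w) → b = 0)
    (hver : ∀ P, IsPrimeDivisor y P → (∃ j, P.ord (z j) ≠ 0) →
      ∃ e : ℕ, (∀ f ∈ IntermediateField.adjoin ℂ (Set.range z), f ≠ 0 → (e : ℤ) ∣ P.ord f) ∧
        (1 - Δ P) * (p + 2) < e)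
    {t : Fin r → K} (ht : ∀ j, t j ≠ 0)
    (hgen : IntermediateField.adjoin ℂ ({x : K | IsAlgebraic F x} ∪ Set.range t) = ⊤)
    (h2 : ∀ P, IsPrimeDivisor y P → (∀ f ∈ F, f ≠ 0 → P.ord f = 0) →
      (∃ j, P.ord (t j) ≠ 0) → 1 ≤ Δ P ∨ (0 < Δ P ∧ Soft F s t P)) :
    ∃ κ : ℕ, p ≤ κ ∧ Grow y n Δ κ := by
  exact weak_grow hy hn hΔ hLC hd hs (fun δ₁ δ₂ lam hδ hδ1 hδ0 m1 hm1 θ hθ hne =>
    torus_hb hn hΔ hd hs hz hzF htr hNT hver hδ hδ1 hδ0 hm1 hθ hne) ht hgen h2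

/-- **Weak abundance** for pairs with very affine interior. -/
theorem va_grow {Δ : Place ℂ K → ℚ} {p s r : ℕ}
    (hy : NormalModel y) (hn : Algebra.trdeg ℂ K = n) (hΔ : Effective y Δ)
    (hLC : LogCanonical y n Δ) {z : Fin r → K} (hz : ∀ j, z j ≠ 0)
    (htop : IntermediateField.adjoin ℂ (Set.range z) = ⊤) {F : IntermediateField ℂ K}
    (hF : F = IntermediateField.adjoin ℂ {w | ∃ a, Invariant ℂ z a ∧ w = mono z a})
    (hd : Algebra.trdeg ℂ F = p) (hs : n = p + s)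
    (hver : ∀ P, IsPrimeDivisor y P → (∃ a, Invariant ℂ z a ∧ P.ord (mono z a) ≠ 0) →
      ∃ e : ℕ, (∀ f ∈ F, f ≠ 0 → (e : ℤ) ∣ P.ord f) ∧ (1 - Δ P) * (p + 2) < e)
    (hhor : ∀ P, IsPrimeDivisor y P → (∀ f ∈ F, f ≠ 0 → P.ord f = 0) →
      (∃ j, P.ord (z j) ≠ 0) → 1 ≤ Δ P ∨ (0 < Δ P ∧ Soft F s z P)) :
    ∃ κ : ℕ, p ≤ κ ∧ Grow y n Δ κ := by
  classical
  obtain ⟨m, hm0, hma, hmtr, hmNT⟩ := exists_quot hn hz htop hF hd
  have hmF : ∀ i, m i ∈ F := by
    intro i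
    obtain ⟨a, ha, h1⟩ := hma i
    rw [hF]
    exact IntermediateField.subset_adjoin ℂ _ ⟨a, ha, h1⟩
  refine torus_grow hy hn hΔ hLC hd hs hm0 hmF hmtr hmNT (fun P hP => ?_) hz ?_ hhor
  · rintro ⟨i, hi⟩
    obtain ⟨a, ha, h1⟩ := hma i
    obtain ⟨e, he, hlt⟩ := hver P hP ⟨a, ha, by rw [← h1]; exact hi⟩
    refine ⟨e, fun f hf hf0 => he f ?_ hf0, hlt⟩
    have h2 : IntermediateField.adjoin ℂ (Set.range m) ≤ F := by
      rw [IntermediateField.adjoin_le_iff]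
      rintro _ ⟨j, rfl⟩
      exact hmF j
    exact h2 hf
  · rw [← top_le_iff, ← htop]
    exact IntermediateField.adjoin.mono ℂ _ _ Set.subset_union_right

/-- **The pseudo-effective case.** -/
theorem psef_grow {Δ : Place ℂ K → ℚ} {p l r : ℕ}
    (hy : NormalModel y) (hn : Algebra.trdeg ℂ K = n) (hΔ : Effective y Δ)
    (hLC : LogCanonical y n Δ) {F M : IntermediateField ℂ K} {z m : Fin r → K}
    {u : Fin l → K} {H : Fin l → Derivation ℂ K K} {c : Fin r → Fin l → ℤ}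
    {aa : Fin r → Fin r → ℤ} {bb : Fin l → Fin r → ℤ}
    (st : Str F M z m u H c aa bb)
    (hd : Algebra.trdeg ℂ F = p)
    (hQ : ∀ g : MvPolynomial (Fin l) M, Irreducible g → ¬ IsVar g →
      ∃ Q, Adic Q u g ∧ NonnegDisc y n Δ Q)
    (hver : ∀ P, IsPrimeDivisor y P → (∃ a, Invariant ℂ z a ∧ P.ord (mono z a) ≠ 0) →
      ∃ e : ℕ, (∀ f ∈ F, f ≠ 0 → (e : ℤ) ∣ P.ord f) ∧ (1 - Δ P) * (p + 2) < e)
    (hhor : ∀ P, IsPrimeDivisor y P → (∀ f ∈ F, f ≠ 0 → P.ord f = 0) →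
      ¬ LogReg F l z P → 1 ≤ Δ P) :
    Grow y n Δ p := by
  classical
  have hnl := st.dim hn hd
  obtain ⟨D, hD, hDM, hDu⟩ := exists_adapted hn st.closed st.ind st.top
  have hup : ∀ A, Effective y A → ∃ C : ℕ, ∀ m : ℕ, 1 ≤ m → ∀ (r : ℕ) (f : Fin r → K),
      LinearIndependent ℂ f → (∀ i, ∃ ω, Y172.IsSection y n m (m • Δ + A) ω ∧ ω D = f i) →
      r ≤ C * m ^ p := by
    intro A hA
    obtain ⟨p0, b, hp0, hlau⟩ := lau_bound hy hn hLC st.closed st.ind st.top hQ hD hDM hDu hA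
    exact upper_lau hy hn hΔ st.closed st.ind st.top hA hp0 hlau hnl
  -- the coefficients
  let X : Set (Place ℂ K) := {P | IsPrimeDivisor y P}
  obtain ⟨tr, htr⟩ : ∃ tr : Place ℂ K → Prop, ∀ P, tr P ↔
      ∀ f ∈ F, f ≠ 0 → P.ord f = 0 := ⟨_, fun _ => Iff.rfl⟩
  let δ₁ : Place ℂ K → ℝ := fun P => if tr P then 0 else (Δ P : ℝ)
  let δ₂ : Place ℂ K → ℝ := fun P => if tr P then (Δ P : ℝ) else 0
  have hΔ0 : ∀ P ∈ X, (0 : ℝ) ≤ Δ P := fun P hP => by exact_mod_cast hΔ.1 P hP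
  have hδ₁ : ∀ P ∈ X, 0 ≤ δ₁ P := by
    intro P hP
    change 0 ≤ if tr P then 0 else (Δ P : ℝ)
    split_ifs
    · exact le_rfl
    · exact hΔ0 P hP
  have hδ : ∀ P ∈ X, δ₁ P + δ₂ P ≤ Δ P := by
    intro P _
    change (if tr P then 0 else (Δ P : ℝ)) + (if tr P then (Δ P : ℝ) else 0) ≤ Δ P
    split_ifs <;> simp
  have hHF : ∀ j, Kills (H j) F := fun j f hf => st.hk j f (st.FM hf)
  have hmF : IntermediateField.adjoin ℂ (Set.range m) ≤ F := by
    rw [IntermediateField.adjoin_le_iff]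
    rintro _ ⟨j, rfl⟩
    exact st.mF j
  -- the sections
  have hkod : KodairaGe n {P | IsPrimeDivisor y P} (fun P => (Δ P : ℝ)) (p + 0) := by
    refine torus_hb hn hΔ hd hnl st.m0 st.mF (st.tr.trans hd) st.nt (fun P hP => ?_)
      (δ₁ := δ₁) (δ₂ := δ₂) hδ (fun P _ hP => if_neg fun h => hP ((htr P).1 h)) hδ₁
      (m1 := 1) one_pos
      (θ := fun _ G => (lmat u fun i => (G i).restrictScalars ℂ).det ^ 1 * 1) (fun _ => ?_) ?_
    · rintro ⟨i, hi⟩
      obtain ⟨e, he, hlt⟩ := hver P hP ⟨aa i, st.inv i, by rw [← st.ma]; exact hi⟩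
      exact ⟨e, fun f hf hf0 => he f (hmF hf) hf0, hlt⟩
    · refine ⟨pluri_restrict (pluri_lmat u 1 1) _, fun P hP _ G hG => ?_⟩
      obtain ⟨G', hG'⟩ : ∃ G' : Fin l → Derivation ℂ K K, G' = fun i => (G i).restrictScalars ℂ :=
        ⟨_, rfl⟩
      have hGF : ∀ i, ∀ f ∈ F, G' i f = 0 := by
        intro i f hf
        rw [hG']
        exact (G i).map_algebraMap (⟨f, hf⟩ : F)
      have hGr : ∀ i, DerReg P (G' i) := by
        intro i f hf
        rw [hG']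
        exact hG i f hf
      simp only [← hG', pow_one, mul_one]
      have hX := hΔ0 P hP
      by_cases ht : tr P
      · have h2 : δ₂ P = Δ P := if_pos ht
        rw [h2]
        have htF := (htr P).1 ht
        by_cases hreg : LogReg F l z P
        · have h3 := hreg bb G' hGF hGr
          have h4 : (Matrix.of fun i j => G' i (mono z (bb j)) / mono z (bb j) :
              Matrix (Fin l) (Fin l) K) = lmat u G' := by
            ext i j
            rw [Matrix.of_apply, ← st.ub]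
            rfl
          rw [h4] at h3
          rcases h3 with h3 | h3
          · exact Or.inl h3
          · right
            have h5 : ((0 : ℤ) : ℝ) ≤ (P.ord (lmat u G').det : ℝ) := by exact_mod_cast h3
            push_cast at h5 ⊢
            linarith
        · have h3 : (1 : ℝ) ≤ Δ P := by exact_mod_cast hhor P hP htF hreg
          have h4 : Ge P (-1) (lmat u G').det := det_log G' hGr _ fun _ => st.u0 _
          rcases h4 with h4 | h4
          · exact Or.inl h4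
          · right
            have h5 : ((-1 : ℤ) : ℝ) ≤ (P.ord (lmat u G').det : ℝ) := by exact_mod_cast h4
            push_cast at h5 ⊢
            linarith
      · have h2 : δ₂ P = 0 := if_neg ht
        rw [h2]
        have htF : ¬ ∀ f ∈ F, f ≠ 0 → P.ord f = 0 := fun h => ht ((htr P).2 h)
        have h3 : Ge P 0 (lmat u G').det := by
          refine ge_det P _ 0 (fun _ _ => 0) (fun i j => ?_) fun σ => by simp
          change Ge P 0 (G' i (u j) / u j)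
          exact derLog_of_nontrivial (hGF i) (hGr i) htF _
        rcases h3 with h4 | h4
        · exact Or.inl h4
        · right
          have h5 : ((0 : ℤ) : ℝ) ≤ (P.ord (lmat u G').det : ℝ) := by exact_mod_cast h4
          push_cast at h5 ⊢
          linarith
    · refine ⟨fun i => Y172.liftD (H i) F (hHF i), ?_, ?_⟩
      · have h3 : (fun i => (Y172.liftD (H i) F (hHF i)).restrictScalars ℂ) = H := by
          funext i
          ext f
          rfl
        simp only [h3]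
        have h4 : lmat u H = 1 := by
          ext i j
          simp only [lmat, Matrix.of_apply]
          rw [st.hu, Matrix.one_apply]
          split_ifs
          · exact div_self (st.u0 _)
          · exact zero_div _
        rw [h4, Matrix.det_one, one_pow, one_mul]
        exact one_ne_zero
      · exact (algebraicIndependent_empty_type_iff).2 (algebraMap F K).injective
  exact ⟨⟨D, hD, hup⟩, hkod⟩

end

end Pool.Agent.D0H90.KT
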