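import Pool.Agent.Y172.Dim
import Pool.Agent.Y191.SmallFib

/-!
Definitions: divisors on varieties with torsion canonical class, and very affine varieties.
-/

set_option autoImplicit false

open FF Filter Pool.Agent.W602.GT Pool.Agent.Y172

namespace Pool.Agent.D0H90.KT.Def

variable {K : Type} [Field K] [Algebra ℂ K] {N : ℕ}

/-- `(X, Δ)` is a projective log canonical pair of dimension `n`, where `y` is the generic point of
`X`. -/
def LcPair (y : Fin (N + 1) → K) (n : ℕ) (Δ : Place ℂ K → ℚ) : Prop :=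
  NormalModel y ∧ Algebra.trdeg ℂ K = n ∧ Effective y Δ ∧ LogCanonical y n Δ

/-- `K_X` is `ℚ`-linearly trivial: for some `a ≥ 1` there is a nonzero `a`-canonical form of order `0`
along all prime divisors of `X`, so that `a K_X` is linearly equivalent to zero. -/
def CanonicalTorsion (y : Fin (N + 1) → K) (n : ℕ) : Prop :=
  ∃ a : ℕ, 1 ≤ a ∧ ∃ ω : (Fin n → Derivation ℂ K K) → K, ω ≠ 0 ∧ IsPluri a ω ∧
    ∀ P, IsPrimeDivisor y P → OrdEq P ω 0

/-- `D` is a `ℚ`-divisor on `X`: it has finitely many components. -/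
def IsDivisor (y : Fin (N + 1) → K) (D : Place ℂ K → ℚ) : Prop :=
  {P | IsPrimeDivisor y P ∧ D P ≠ 0}.Finite

/-- `D` is `ℚ`-linearly equivalent to a positive rational multiple of `Δ`: `b D = a Δ + div g` for
some integers `a, b ≥ 1` and some rational function `g ≠ 0`. -/
def QMultiple (y : Fin (N + 1) → K) (D Δ : Place ℂ K → ℚ) : Prop :=
  ∃ a b : ℕ, 1 ≤ a ∧ 1 ≤ b ∧ ∃ g : K, g ≠ 0 ∧
    ∀ P, IsPrimeDivisor y P → b * D P = a * Δ P + P.ord g

/-- The rational function `g` on `X` is zero or has `div g + D ≥ 0`. -/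
def IsSection (y : Fin (N + 1) → K) (D : Place ℂ K → ℚ) (g : K) : Prop :=
  ∀ P, IsPrimeDivisor y P → g = 0 ∨ -(D P) ≤ P.ord g

/-- `h⁰ (X, D)`: the dimension of the space of the rational functions `g` on `X` which are zero or
satisfy `div g + D ≥ 0`. -/
noncomputable def h0D (y : Fin (N + 1) → K) (D : Place ℂ K → ℚ) : ℕ :=
  Module.finrank ℂ (Submodule.span ℂ {g : K | IsSection y D g})

open scoped Classical in
/-- The Iitaka dimension of the `ℚ`-divisor `D`: it is `⊥` if `h⁰ (X, m D) = 0` for all `m ≥ 1` such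
that `m D` is integral, and otherwise the largest `k` such that the upper limit of
`h⁰ (X, m D) / m ^ k` over these `m` is positive. -/
noncomputable def iitakaDim (y : Fin (N + 1) → K) (D : Place ℂ K → ℚ) : WithBot ℕ :=
  if ∀ m : ℕ, 1 ≤ m → Integral y (m • D) → h0D y (m • D) = 0 then ⊥ else
    ((sSup {k : ℕ | 0 < limsup (fun m : ℕ => (h0D y (m • D) : ENNReal) / (m : ENNReal) ^ k)
      (atTop ⊓ 𝓟 {m : ℕ | 1 ≤ m ∧ Integral y (m • D)})} : ℕ) : WithBot ℕ)

/-- The numerical dimension of the `ℚ`-divisor `D` with respect to the divisor `A`: the upper limit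
of `log h⁰ (X, m D + A) / log m` over the `m ≥ 1` such that `m D + A` is integral. -/
noncomputable def numDim (y : Fin (N + 1) → K) (D A : Place ℂ K → ℚ) : EReal :=
  limsup (fun m : ℕ => ENNReal.log (h0D y (m • D + A) : ENNReal) / (Real.log m : EReal))
    (atTop ⊓ 𝓟 {m : ℕ | 1 ≤ m ∧ Integral y (m • D + A)})

/-- The vector field `∑ b j z j ∂/∂z j` is tangent to the subvariety `W` of the torus with generic
point `z`: there is a derivation `H` of `K` with `H (z j) = b j * z j`. -/
def Tangent {r : ℕ} (z : Fin r → K) (b : Fin r → ℤ) : Prop :=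
  ∃ H : Derivation ℂ K K, ∀ j, H (z j) = (b j : K) * z j

/-- The monomial `∏ j, z j ^ a j` is killed by all tangent vector fields `∑ b j z j ∂/∂z j`. -/
def Invariant {r : ℕ} (z : Fin r → K) (a : Fin r → ℤ) : Prop :=
  ∀ b, Tangent z b → ∑ j, a j * b j = 0

/-- The field generated by the invariant monomials: the function field of the quotient `B` of `W` by
the identity component of its stabiliser. -/
noncomputable def baseField {r : ℕ} (z : Fin r → K) : IntermediateField ℂ K :=
  IntermediateField.adjoin ℂ {w | ∃ a, Invariant z a ∧ w = ∏ j, z j ^ a j}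

/-- The logarithmic forms `dz/z ∧ ... ∧ dz/z` of degree `s` over `F` are regular along `P`. -/
def LogRegular {r : ℕ} (F : IntermediateField ℂ K) (s : ℕ) (z : Fin r → K) (P : Place ℂ K) : Prop :=
  ∀ (T : Fin s → Fin r) (G : Fin s → Derivation ℂ K K), (∀ i, ∀ f ∈ F, G i f = 0) →
    (∀ i, DerReg P (G i)) →
    P.Reg (Matrix.of fun i j => G i (z (T j)) / z (T j) : Matrix (Fin s) (Fin s) K).det

end Pool.Agent.D0H90.KT.Def
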