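import Pool.Agent.Y172.Dim
import Pool.Agent.Y172.Rel
import Pool.Agent.Y191.Weak

/-!
Iitaka dimension and numerical dimension of divisors.
-/

set_option autoImplicit false
set_option linter.overlappingInstances false
set_option linter.unusedSectionVars false

open FF Filter Pool.Agent.W602.GT Pool.Agent.W603.LV Pool.Agent.Y172 Pool.Agent.Y191

namespace Pool.Agent.D0H90.KT

section

variable {K : Type} [Field K] [Algebra ℂ K] {N : ℕ}

/-- The rational function `g` on `X` is zero or has `div g + D ≥ 0`. -/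
def IsFn (y : Fin (N + 1) → K) (D : Place ℂ K → ℚ) (g : K) : Prop :=
  ∀ P, IsPrimeDivisor y P → g = 0 ∨ -(D P) ≤ P.ord g

/-- `h⁰ (X, D)`: the dimension of the space of the rational functions `g` on `X` which are zero or
satisfy `div g + D ≥ 0`. -/
noncomputable def hD (y : Fin (N + 1) → K) (D : Place ℂ K → ℚ) : ℕ :=
  Module.finrank ℂ (Submodule.span ℂ {g : K | IsFn y D g})

open scoped Classical in
/-- The Iitaka dimension of the `ℚ`-divisor `L`: it is `⊥` if `h⁰ (X, m L) = 0` for all `m ≥ 1` such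
that `m L` is integral, and otherwise the largest `k` such that the upper limit of
`h⁰ (X, m L) / m ^ k` over these `m` is positive. -/
noncomputable def iitakaDim (y : Fin (N + 1) → K) (L : Place ℂ K → ℚ) : WithBot ℕ :=
  if ∀ m : ℕ, 1 ≤ m → Integral y (m • L) → hD y (m • L) = 0 then ⊥ else
    ((sSup {k : ℕ | 0 < limsup (fun m : ℕ => (hD y (m • L) : ENNReal) / (m : ENNReal) ^ k)
      (atTop ⊓ 𝓟 {m : ℕ | 1 ≤ m ∧ Integral y (m • L)})} : ℕ) : WithBot ℕ)

/-- The numerical dimension of the `ℚ`-divisor `L` with respect to the divisor `A`: the upper limit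
of `log h⁰ (X, m L + A) / log m` over the `m ≥ 1` such that `m L + A` is integral. -/
noncomputable def numDim (y : Fin (N + 1) → K) (L A : Place ℂ K → ℚ) : EReal :=
  limsup (fun m : ℕ => ENNReal.log (hD y (m • L + A) : ENNReal) / (Real.log m : EReal))
    (atTop ⊓ 𝓟 {m : ℕ | 1 ≤ m ∧ Integral y (m • L + A)})

/-- `L` is a `ℚ`-divisor: it has finitely many components. -/
def IsDiv (y : Fin (N + 1) → K) (L : Place ℂ K → ℚ) : Prop :=
  {P | IsPrimeDivisor y P ∧ L P ≠ 0}.Finite

variable {y : Fin (N + 1) → K}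

theorem IsFn.mul {D D' : Place ℂ K → ℚ} {g g' : K} (h : IsFn y D g) (h' : IsFn y D' g') :
    IsFn y (D + D') (g * g') := by
  intro P hP
  by_cases h1 : g = 0
  · exact Or.inl (by rw [h1, zero_mul])
  by_cases h2 : g' = 0
  · exact Or.inl (by rw [h2, mul_zero])
  right
  have h3 := (h P hP).resolve_left h1
  have h4 := (h' P hP).resolve_left h2
  rw [P.ord_mul h1 h2, Pi.add_apply]
  push_cast
  linarith

theorem isFn_one : IsFn y (0 : Place ℂ K → ℚ) (1 : K) := by
  intro P _
  right
  rw [P.ord_one]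
  simp

theorem IsFn.pow {D : Place ℂ K → ℚ} {g : K} (h : IsFn y D g) (t : ℕ) : IsFn y (t • D) (g ^ t) := by
  induction t with
  | zero =>
    rw [pow_zero, zero_smul]
    exact isFn_one
  | succ t ih =>
    rw [pow_succ, add_smul, one_smul]
    exact ih.mul h

theorem isFn_prod {D : Place ℂ K → ℚ} {r : ℕ} {g : Fin r → K} (h : ∀ i, IsFn y D (g i))
    (a : Fin r → ℕ) : IsFn y ((∑ i, a i) • D) (∏ i, g i ^ a i) := by
  induction r with
  | zero =>
    simp only [Finset.univ_eq_empty, Finset.sum_empty, zero_smul, Finset.prod_empty]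
    exact isFn_one
  | succ r ih =>
    have h1 := ((h 0).pow (a 0)).mul (ih (fun i => h i.succ) fun i => a i.succ)
    simp only [Fin.sum_univ_succ, Fin.prod_univ_succ, add_smul]
    exact h1

/-- the space of the functions -/
def fnSub (y : Fin (N + 1) → K) (D : Place ℂ K → ℚ) : Submodule ℂ K where
  carrier := {g | IsFn y D g}
  add_mem' := by
    intro g g' h h' P hP
    by_cases h1 : g = 0
    · rw [h1, zero_add]
      exact h' P hP
    by_cases h2 : g' = 0
    · rw [h2, add_zero]
      exact h P hP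
    by_cases h3 : g + g' = 0
    · exact Or.inl h3
    right
    have h4 := (h P hP).resolve_left h1
    have h5 := (h' P hP).resolve_left h2
    have h6 := P.ord_add h1 h2 h3
    have h7 : -(D P) ≤ ((min (P.ord g) (P.ord g') : ℤ) : ℚ) := by
      rw [Int.cast_min]
      exact le_min h4 h5
    exact h7.trans (by exact_mod_cast h6)
  zero_mem' := fun P _ => Or.inl rfl
  smul_mem' := by
    intro c g h P hP
    by_cases hc : c = 0
    · exact Or.inl (by rw [hc, zero_smul])
    rcases h P hP with h3 | h3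
    · exact Or.inl (by rw [h3, smul_zero])
    by_cases h4 : g = 0
    · exact Or.inl (by rw [h4, smul_zero])
    right
    rw [Algebra.smul_def, P.ord_mul (by simpa using hc) h4, P.ord_const hc, zero_add]
    exact h3

theorem hD_eq (D : Place ℂ K → ℚ) : hD y D = Module.finrank ℂ (fnSub y D) := by
  unfold hD
  have : Submodule.span ℂ {g | IsFn y D g} = fnSub y D := Submodule.span_eq (fnSub y D)
  rw [this]

theorem finite_hD {A : Place ℂ K → ℚ} {B : ℕ} (hB : ∀ (r : ℕ) (f : Fin r → K),
    LinearIndependent ℂ f → (∀ i, IsFn y A (f i)) → r ≤ B) :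
    Module.Finite ℂ (fnSub y A) ∧ hD y A ≤ B := by
  have h1 : Module.rank ℂ (fnSub y A) ≤ B := by
    refine _root_.rank_le fun s hs => ?_
    have h2 := hs.map' (fnSub y A).subtype (LinearMap.ker_eq_bot.2 (Submodule.injective_subtype _))
    have h3 := h2.comp s.equivFin.symm s.equivFin.symm.injective
    exact hB _ _ h3 fun i => (s.equivFin.symm i).1.2
  refine ⟨?_, ?_⟩
  · exact Module.rank_lt_aleph0_iff.1 (lt_of_le_of_lt h1 Cardinal.natCast_lt_aleph0)
  · rw [hD_eq]
    exact Module.finrank_le_of_rank_le h1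

theorem le_hD {A : Place ℂ K → ℚ} (hfin : Module.Finite ℂ (fnSub y A)) {ι : Type}
    [Fintype ι] {v : ι → K} (hv : LinearIndependent ℂ v) (h : ∀ i, IsFn y A (v i)) :
    Fintype.card ι ≤ hD y A := by
  rw [hD_eq]
  have h1 : LinearIndependent ℂ (fun i => (⟨v i, h i⟩ : fnSub y A)) :=
    LinearIndependent.of_comp (fnSub y A).subtype hv
  exact h1.fintype_card_le_finrank

/-- **The Iitaka dimension and the numerical dimension.** -/
theorem dimsD {k : ℕ} {L : Place ℂ K → ℚ} (hL : IsDiv y L)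
    (hup : ∀ A, Effective y A → ∃ C : ℕ, ∀ m : ℕ, 1 ≤ m → ∀ (r : ℕ) (f : Fin r → K),
      LinearIndependent ℂ f → (∀ i, IsFn y (m • L + A) (f i)) → r ≤ C * m ^ k)
    {m0 : ℕ} (hm0 : 1 ≤ m0) {g : Fin (k + 1) → K} (hg : ∀ j, IsFn y (m0 • L) (g j))
    (hE : g 0 ≠ 0) (hind : AlgebraicIndependent ℂ (fun i : Fin k => g i.succ / g 0)) :
    iitakaDim y L = (k : WithBot ℕ) ∧
      ∀ A, Effective y A → Integral y A → numDim y L A = (k : EReal) := by
  classical
  -- a common denominator
  obtain ⟨d0, hd0, hint⟩ : ∃ d0 : ℕ, 1 ≤ d0 ∧ ∀ t : ℕ, Integral y ((t * d0) • L) := by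
    have hL' : {P | IsPrimeDivisor y P ∧ L P ≠ 0}.Finite := hL
    let S := hL'.toFinset
    refine ⟨∏ P ∈ S, (L P).den, Nat.pos_of_ne_zero (Finset.prod_ne_zero_iff.2 fun P _ =>
      (L P).den_ne_zero), fun t P hP => ?_⟩
    by_cases h0 : L P = 0
    · exact ⟨0, by simp [h0]⟩
    have hPS : P ∈ S := by
      rw [Set.Finite.mem_toFinset]
      exact ⟨hP, h0⟩
    refine ⟨t * (∏ Q ∈ S.erase P, (L Q).den : ℕ) * (L P).num, ?_⟩
    rw [← Finset.prod_erase_mul _ _ hPS]
    have h1 : ((L P).den : ℚ) * L P = (L P).num := by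
      rw [mul_comm]
      exact Rat.mul_den_eq_num (L P)
    simp only [Pi.smul_apply, nsmul_eq_mul]
    push_cast
    rw [← h1]
    ring
  have hzero : Effective y (0 : Place ℂ K → ℚ) :=
    ⟨fun _ _ => le_rfl, Set.finite_empty.subset (by rintro P ⟨-, h⟩; exact h rfl)⟩
  -- the lower bound
  obtain ⟨M, hM⟩ : ∃ M : ℕ, M = (k + 1) * d0 * m0 := ⟨_, rfl⟩
  have hM1 : 1 ≤ M := by
    rw [hM]
    exact Nat.mul_pos (Nat.mul_pos (Nat.succ_pos k) hd0) hm0
  have hlow : ∀ A, Effective y A → ∀ t : ℕ, 1 ≤ t → t ^ k ≤ hD y ((t * M) • L + A) := by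
    intro A hA t ht
    obtain ⟨C, hC⟩ := hup A hA
    have htM : 1 ≤ t * M := Nat.mul_pos ht hM1
    obtain ⟨hfin, -⟩ := finite_hD (hC (t * M) htM)
    let T := (k + 1) * d0 * t
    let b : (Fin k → Fin (t + 1)) → Fin (k + 1) → ℕ := fun a =>
      Fin.cons (T - ∑ i, (a i : ℕ)) fun i => (a i : ℕ)
    have hle : ∀ a : Fin k → Fin (t + 1), ∑ i, (a i : ℕ) ≤ T := by
      intro a
      have h1 : ∑ i, (a i : ℕ) ≤ ∑ _i : Fin k, t :=
        Finset.sum_le_sum fun i _ => Nat.lt_succ_iff.1 (a i).2
      rw [Finset.sum_const, Finset.card_univ, Fintype.card_fin, smul_eq_mul] at h1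
      refine h1.trans ?_
      have h2 : k * t ≤ (k + 1) * d0 * t :=
        Nat.mul_le_mul_right _ ((Nat.le_succ k).trans (Nat.le_mul_of_pos_right _ hd0))
      exact h2
    have hsum : ∀ a, ∑ i, b a i = T := by
      intro a
      rw [Fin.sum_univ_succ]
      simp only [b, Fin.cons_zero, Fin.cons_succ]
      exact Nat.sub_add_cancel (hle a)
    let v : (Fin k → Fin (t + 1)) → K := fun a => ∏ i, g i ^ b a i
    have hv : ∀ a, IsFn y ((t * M) • L + A) (v a) := by
      intro a
      have h1 := isFn_prod hg (b a)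
      rw [hsum] at h1
      have e1 : T * m0 = t * M := by
        rw [hM]
        ring
      rw [smul_smul, e1] at h1
      intro P hP
      rcases h1 P hP with h2 | h2
      · exact Or.inl h2
      · refine Or.inr (le_trans ?_ h2)
        have := hA.1 P hP
        simp only [Pi.add_apply]
        linarith
    have hvE : ∀ a, v a = g 0 ^ T * ∏ i : Fin k, (g i.succ / g 0) ^ (a i : ℕ) := by
      intro a
      change ∏ i, g i ^ b a i = _
      rw [Fin.prod_univ_succ]
      simp only [b, Fin.cons_zero, Fin.cons_succ, div_pow, Finset.prod_div_distrib]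
      have h1 : g 0 ^ T = g 0 ^ (T - ∑ i, (a i : ℕ)) * ∏ i, g 0 ^ (a i : ℕ) := by
        rw [Finset.prod_pow_eq_pow_sum, ← pow_add, Nat.sub_add_cancel (hle a)]
      rw [h1]
      have h2 : ∏ i, g 0 ^ (a i : ℕ) ≠ 0 := Finset.prod_ne_zero_iff.2 fun i _ => pow_ne_zero _ hE
      field_simp
    have hvind : LinearIndependent ℂ v := by
      have h1 : LinearIndependent ℂ fun a : Fin k → Fin (t + 1) =>
          ∏ i : Fin k, (g i.succ / g 0) ^ (a i : ℕ) :=
        (mono_indep hind).comp (fun (a : Fin k → Fin (t + 1)) i => (a i : ℕ)) (by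
          intro a a' h
          funext i
          exact Fin.ext (congrFun h i))
      have h3 := h1.map' (LinearMap.mulLeft ℂ (g 0 ^ T)) (by
        rw [LinearMap.ker_eq_bot]
        exact fun a b hab => mul_left_cancel₀ (pow_ne_zero _ hE) hab)
      have h4 : v = (LinearMap.mulLeft ℂ (g 0 ^ T)) ∘
          fun a : Fin k → Fin (t + 1) => ∏ i : Fin k, (g i.succ / g 0) ^ (a i : ℕ) := by
        funext a
        exact hvE a
      rw [h4]
      exact h3
    have h1 := le_hD hfin hvind hv
    rw [Fintype.card_fun, Fintype.card_fin, Fintype.card_fin] at h1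
    exact (Nat.pow_le_pow_left (Nat.le_succ t) k).trans h1
  have hint' : ∀ A, Integral y A → ∀ t : ℕ, Integral y ((t * M) • L + A) := by
    intro A hA t P hP
    obtain ⟨z, hz⟩ := hint (t * (k + 1) * m0) P hP
    obtain ⟨z', hz'⟩ := hA P hP
    refine ⟨z + z', ?_⟩
    have e1 : t * M = t * (k + 1) * m0 * d0 := by
      rw [hM]
      ring
    rw [Pi.add_apply, hz', e1, hz]
    push_cast
    ring
  have hzint : Integral y (0 : Place ℂ K → ℚ) := fun P _ => ⟨0, by simp⟩
  constructor
  · obtain ⟨C, hC⟩ := hup 0 hzero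
    have hlow0 := hlow 0 hzero
    have hint0 := hint' 0 hzint
    simp only [add_zero] at hlow0 hint0 hC
    unfold iitakaDim
    rw [if_neg]
    · congr 1
      exact kappa_eq (I := {m : ℕ | 1 ≤ m ∧ Integral y (m • L)})
        (h := fun m => hD y (m • L)) (C := C) hM1
        (fun t ht => ⟨Nat.mul_pos ht hM1, hint0 t⟩) hlow0
        fun m _ hm => (finite_hD (hC m hm)).2
    · intro hcon
      have h1 := hcon (1 * M) (by omega) (hint0 1)
      have h2 := hlow0 1 le_rfl
      rw [h1, one_pow] at h2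
      omega
  · intro A hA hAint
    obtain ⟨C, hC⟩ := hup A hA
    exact nu_eq (I := {m : ℕ | 1 ≤ m ∧ Integral y (m • L + A)})
      (h := fun m => hD y (m • L + A)) (C := C) hM1
      (fun t ht => ⟨Nat.mul_pos ht hM1, hint' A hAint t⟩) (hlow A hA)
      fun m _ hm => (finite_hD (hC m hm)).2

end

end Pool.Agent.D0H90.KT
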